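import Mathlib
import Pool.Agent.K6.H70.PK.Fin

/-! # MP_edeaa2_an: three linear forms, one of them cubic: the values are dense with a rate

Let `g` be a real invertible `3 × 3` matrix and `F` the product of the three linear forms given by
its rows.  Let `A` be a rational `3 × 3` matrix with irreducible characteristic polynomial, and
suppose that one row of `g`, or the span of two rows, is invariant under `A`.  In other words: the
coefficients of one of the linear forms are, up to scaling, a basis of a real cubic field, or the
common zero line of two of the forms is spanned by such a vector; nothing is assumed about the other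
forms.  The cubic field may have one or three real embeddings.

Then `F` is proportional to an integral form, or for every real `t` there are a constant `C` and
infinitely many integer points `x` with `|F(x) - t| ≤ C / log ‖x‖`.

That the values are dense in the second case goes back to Cassels and Swinnerton-Dyer (compactness,
no rate).  For `t = 0` and the forms `q, q α - p, q β - r` the rate is the theorem of Peck on
Littlewood's conjecture.

Proof.  Let `u` run through the units, `σ_j` through the embeddings.  In the real case one finds two
embeddings `a`, `b` such that along the units with `|σ_a(u)|` and `|σ_b(u)|` of the same size, and the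
third conjugate very small or very large, the value `F(u x)` is a function of the ratio of these two
up to an error `O(|σ_a(u)| ^ (∓3))`, and this function takes the value `t` for a suitable fixed `x`.
The logarithms of the units form a planar lattice; an inhomogeneous approximation theorem for planar
lattices (one coordinate large and of given sign, the other near a given number with an error
inverse to the first one) gives the units.  In the complex case the ratio is replaced by an argument. -/

namespace Pool.Agent.Results.MP_edeaa2_an.CubicFactorRate

/-- **Quantitative density of the values** if one factor, or the common zero line of two factors, is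
cubic. -/
theorem result (g : Matrix (Fin 3) (Fin 3) ℝ) (hg : g.det ≠ 0)
    (A : Matrix (Fin 3) (Fin 3) ℚ) (hA : Irreducible A.charpoly)
    (S : Finset (Fin 3)) (hS : S.Nonempty) (hSd : S ≠ Finset.univ)
    (hinv : ∀ i ∈ S, ∃ c : Fin 3 → ℝ, ∀ j : Fin 3,
      ∑ k : Fin 3, g i k * (A k j : ℝ) = ∑ k ∈ S, c k * g k j) :
    (∃ c : ℝ, c ≠ 0 ∧ ∀ m : Fin 3 →₀ ℕ, ∃ z : ℤ, MvPolynomial.coeff m
        (c • (∏ i : Fin 3, ∑ j : Fin 3,
          MvPolynomial.C (g i j) * MvPolynomial.X j : MvPolynomial (Fin 3) ℝ)) = (z : ℝ)) ∨
    ∀ t : ℝ, ∃ C : ℝ, ∀ R : ℝ, ∃ x : Fin 3 → ℤ, R ≤ ‖x‖ ∧
      |(∏ i : Fin 3, ∑ j : Fin 3, g i j * (x j : ℝ)) - t| * Real.log ‖x‖ ≤ C := by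
  refine Pool.Agent.K6.H70.PK.dichotomy g hg A hA S hS.card_pos ?_ hinv
  have h1 : S.card < (Finset.univ : Finset (Fin 3)).card :=
    Finset.card_lt_card (Finset.ssubset_univ_iff.2 hSd)
  simpa using h1

end Pool.Agent.Results.MP_edeaa2_an.CubicFactorRate
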